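import Pool.Agent.MNT.StmtsA

/-!
# Squad MNT (MP_160b6c_nt), row LOB: the local inequality at the places of a number field
-/

set_option autoImplicit false

namespace Pool.Agent.MNT.H87

open Polynomial NumberField

theorem card_RR (g : ℕ) : (RR g).card = 2 * g + 1 := by
  have h : RR g = (Finset.univ : Finset (Fin (2 * g + 1))).map Function.Embedding.inl := by
    ext p
    rcases p with p | p <;> simp [RR]
  rw [h, Finset.card_map, Finset.card_univ, Fintype.card_fin]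

theorem card_PP (g : ℕ) : Fintype.card (PP g) = 2 * g + 1 + (4 * g + 8) := by
  simp [PP]

theorem qu_vC : QU vC (Real.log 2) := by
  refine ⟨Real.log_nonneg one_le_two, fun a b => ?_⟩
  rw [Real.exp_log two_pos]
  show ‖a + b‖ ≤ 2 * max ‖a‖ ‖b‖
  have h1 := norm_add_le a b
  have h2 := le_max_left ‖a‖ ‖b‖
  have h3 := le_max_right ‖a‖ ‖b‖
  linarith

theorem lob (hLOC : LocStmt) (hOTA : OtaStmt) (hOTN : OtnStmt) : LobStmt := by
  intro g hg
  obtain ⟨ε, M, hε, hloc⟩ := hLOC g hg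
  obtain ⟨e₂, he₂, hota⟩ := hOTA (Fintype.card (PP g))
    ((Fintype.card (PP g) : ℝ) * Real.log 2)
  refine ⟨ε, M * (Real.log 2 + e₂), hε, ?_, ?_⟩
  · intro E _ v hv z hz e N U W c he hsol p q p' q' hpq hpq'
    have hQU : QU v 0 := by
      refine ⟨le_refl _, fun a b => ?_⟩
      rw [Real.exp_zero, one_mul]
      exact hv a b
    have hG : ∀ Λ : Lam (PP g), Λ.Rep (dis v z) ((Fintype.card (PP g) : ℝ) * 0) →
        ∀ d ∈ Λ.V, Λ.Grd (RR g) d → ∃ p ∈ d, ∀ x, x ∉ RR g →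
          Harm v (U x).roots (z x) (z p) (Real.exp (-Λ.lev d)) 0 := by
      intro Λ hΛ d hd hgrd
      rw [mul_zero] at hΛ
      obtain ⟨p, hp, hharm⟩ := hOTN E v hv (PP g) (RR g) z hz Λ hΛ e he d hd hgrd
      exact ⟨p, hp, fun x hx => hharm (z x) (N x) (U x) (W x) (c x) (hsol x hx).1 (hsol x hx).2⟩
    have h := hloc E v 0 0 hQU (le_refl _) (PP g) (RR g) (card_RR g) (card_PP g) z hz e N U W c he
      hsol hG p q p' q' hpq hpq'
    simpa using h
  · intro z hz e N U W c he hsol p q p' q' hpq hpq'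
    have hG : ∀ Λ : Lam (PP g), Λ.Rep (dis vC z) ((Fintype.card (PP g) : ℝ) * Real.log 2) →
        ∀ d ∈ Λ.V, Λ.Grd (RR g) d → ∃ p ∈ d, ∀ x, x ∉ RR g →
          Harm vC (U x).roots (z x) (z p) (Real.exp (-Λ.lev d)) e₂ := by
      intro Λ hΛ d hd hgrd
      obtain ⟨p, hp, hharm⟩ := hota (PP g) (le_refl _) (RR g) z hz Λ hΛ e he d hd hgrd
      exact ⟨p, hp, fun x hx => hharm (z x) (N x) (U x) (W x) (c x) (hsol x hx)⟩
    exact hloc ℂ vC (Real.log 2) e₂ qu_vC he₂ (PP g) (RR g) (card_RR g) (card_PP g) z hz e N U W c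
      he (fun x hx => ⟨hsol x hx, IsAlgClosed.splits _⟩) hG p q p' q' hpq hpq'

end Pool.Agent.MNT.H87
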